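import Pool.Agent.H832R3.VJ.Defs
import Pool.Agent.Y463.UT.Defs

/-!
# Vassiliev invariants of diagrams with random exponents: definitions
-/

set_option autoImplicit false

namespace Pool.Agent.Y463.VL

open Pool.Agent.H891R2.Jones Pool.Agent.W639.RB Pool.Agent.H832R3.VJ Pool.Agent.Y463.UT

variable {m : ℕ}

/-- the number of crossings plus twice the number of marked points of an outside -/
noncomputable def csize (O : Outer m) : ℕ := O.crossings.length + 2 * Nat.card O.P

/-- the number of crossings plus twice the number of marked points of a diagram -/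
noncomputable def dsz (Y : Dia) : ℕ := Y.D.crossings.length + 2 * Nat.card Y.P

/-- the diagram with the word `σ_{i_1}^{x_1} ⋯ σ_{i_k}^{x_k}` in the box of `O`, the rest of the box being
filled with vertical strands, with its finite set of marked points -/
noncomputable def mem {k : ℕ} (O : Outer m) (i : Fin k → Fin (m - 1)) (x : Fin k → ℤ) : Dia :=
  ⟨_, inferInstance, Pool.Agent.Y463.SK.dia O (tw i x)⟩

/-- the bound for the order of the Vassiliev invariants -/
def ordB (m s k : ℕ) : ℕ := 2 ^ (k + 1) * (2 * (s + (2 * m + 5) * k) + 1)

open Classical in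
/-- the probability of `E` for independent integers `x a j` with the distributions `μ a j` -/
noncomputable def probT {M k : ℕ} (μ : Fin M → Fin k → Law) (E : (Fin M → Fin k → ℤ) → Prop) : ℝ := 
  ∑ x ∈ (Fintype.piFinset (fun a => Fintype.piFinset (fun j => (μ a j).A))).filter E, 
    ∏ a, ∏ j, (μ a j).p (x a j)

end Pool.Agent.Y463.VL
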