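import Pool.Agent.Y463.VL.Sep

/-!
# Probabilities
-/

set_option autoImplicit false

namespace Pool.Agent.Y463.VL

open Finset LaurentPolynomial Pool.Agent.H891R2.Jones Pool.Agent.W639.RB Pool.Agent.Y463.SK 
  Pool.Agent.Y463.MP Pool.Agent.Y463.RW Pool.Agent.Y463.UT Pool.Agent.H832R3.VJ

variable {m : ℕ}

/-- the probability of a value of the normalised bracket -/
theorem prob_val (hm : 3 ≤ m) (O : Outer m) (g : ℤ[T;T⁻¹]) (k : ℕ) 
    (i : Fin k → Fin (m - 1)) (μ : Fin k → Law) (ε : ℝ) (hε : 0 < ε) (u : ℕ) 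
    (hu : u * ((m.factorial + 1) * (m.factorial + 2)) ≤ turns i μ ε) : 
    prob μ (fun x => (mem O i x).D.fPoly = g) ≤ CU m * (8 * ε) ^ ((u : ℝ) / 2) := by
  refine (prob_mono μ _ _ fun x _ h => ?_).trans (final hm 2 le_rfl O g k i μ ε hε u hu)
  have h1 : (dia O (tw i x)).fPoly = g := h
  rw [h1, sub_self]
  exact dvd_zero _

/-- two different coordinates of a product -/
theorem pair_sum {α : Type*} [DecidableEq α] {M : ℕ} (S : Fin M → Finset α) (W : Fin M → α → ℝ) 
    (hW : ∀ a x, 0 ≤ W a x) (h1 : ∀ a, ∑ x ∈ S a, W a x = 1) (a b : Fin M) (hab : a ≠ b) 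
    (E : α → α → Prop) [∀ x y, Decidable (E x y)] (η : ℝ) 
    (hη : ∀ y ∈ S b, ∑ x ∈ S a, (if E x y then W a x else 0) ≤ η) : 
    ∑ X ∈ Fintype.piFinset S, (if E (X a) (X b) then ∏ c, W c (X c) else 0) ≤ η := by
  have key : ∀ y ∈ S b, ∑ X ∈ Fintype.piFinset S, (if E (X a) y ∧ X b = y then ∏ c, W c (X c) else 0) = 
      (∑ x ∈ S a, (if E x y then W a x else 0)) * W b y := by
    intro y hy
    set g : Fin M → α → ℝ := fun c x => if c = a then (if E x y then W a x else 0) 
      else if c = b then (if x = y then W b x else 0) else W c x with hg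
    have h2 : ∀ X : Fin M → α, (if E (X a) y ∧ X b = y then ∏ c, W c (X c) else 0) = ∏ c, g c (X c) := by
      intro X
      by_cases hE : E (X a) y ∧ X b = y
      · rw [if_pos hE]
        refine Finset.prod_congr rfl fun c _ => ?_
        simp only [hg]
        by_cases hca : c = a
        · subst hca
          rw [if_pos rfl, if_pos hE.1]
        · rw [if_neg hca]
          by_cases hcb : c = b
          · subst hcb
            rw [if_pos rfl, if_pos hE.2]
          · rw [if_neg hcb]
      · rw [if_neg hE]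
        by_cases hE1 : E (X a) y
        · have hE2 : X b ≠ y := fun h => hE ⟨hE1, h⟩
          refine (Finset.prod_eq_zero (Finset.mem_univ b) ?_).symm
          simp only [hg, if_neg (Ne.symm hab), if_true, if_neg hE2]
        · refine (Finset.prod_eq_zero (Finset.mem_univ a) ?_).symm
          simp only [hg, if_true, if_neg hE1]
    simp only [h2]
    rw [← Finset.prod_univ_sum]
    rw [← Finset.mul_prod_erase _ _ (Finset.mem_univ a)]
    rw [← Finset.mul_prod_erase _ _ (Finset.mem_erase.2 ⟨Ne.symm hab, Finset.mem_univ b⟩)]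
    have e1 : ∏ c ∈ (univ.erase a).erase b, ∑ x ∈ S c, g c x = 1 := by
      refine Finset.prod_eq_one fun c hc => ?_
      have hcb : c ≠ b := (Finset.mem_erase.1 hc).1
      have hca : c ≠ a := (Finset.mem_erase.1 (Finset.mem_erase.1 hc).2).1
      simp only [hg]
      simp only [if_neg hca, if_neg hcb]
      exact h1 c
    have e2 : ∑ x ∈ S b, g b x = W b y := by
      simp only [hg]
      simp only [if_neg (Ne.symm hab), if_true]
      rw [Finset.sum_ite_eq' (S b) y, if_pos hy]
    have e3 : ∑ x ∈ S a, g a x = ∑ x ∈ S a, (if E x y then W a x else 0) := by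
      simp only [hg, if_true]
    rw [e1, e2, e3, mul_one]
  have h3 : ∑ X ∈ Fintype.piFinset S, (if E (X a) (X b) then ∏ c, W c (X c) else 0) = 
      ∑ y ∈ S b, ∑ X ∈ Fintype.piFinset S, (if E (X a) y ∧ X b = y then ∏ c, W c (X c) else 0) := by
    rw [Finset.sum_comm]
    refine Finset.sum_congr rfl fun X hX => ?_
    have hXb : X b ∈ S b := Fintype.mem_piFinset.1 hX b
    rw [Finset.sum_eq_single (X b)]
    · simp
    · intro y _ hy
      rw [if_neg]
      rintro ⟨_, h⟩
      exact hy h.symm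
    · intro h
      exact absurd hXb h
  rw [h3]
  calc ∑ y ∈ S b, ∑ X ∈ Fintype.piFinset S, (if E (X a) y ∧ X b = y then ∏ c, W c (X c) else 0) = 
      ∑ y ∈ S b, (∑ x ∈ S a, (if E x y then W a x else 0)) * W b y := Finset.sum_congr rfl key
    _ ≤ ∑ y ∈ S b, η * W b y := by
      refine Finset.sum_le_sum fun y hy => ?_
      exact mul_le_mul_of_nonneg_right (hη y hy) (hW b y)
    _ = η := by rw [← Finset.mul_sum, h1 b, mul_one]

theorem law_sum {k : ℕ} (μ : Fin k → Law) : 
    ∑ x ∈ Fintype.piFinset (fun j => (μ j).A), ∏ j, (μ j).p (x j) = 1 := by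
  rw [← Finset.prod_univ_sum]
  exact Finset.prod_eq_one fun j _ => (μ j).sum

/-- pairwise different values in a tuple -/
theorem tuple {M k : ℕ} (μ : Fin M → Fin k → Law) 
    (E : Fin M → Fin M → (Fin k → ℤ) → (Fin k → ℤ) → Prop) (η : ℝ) 
    (hη : ∀ a b, a ≠ b → ∀ y, prob (μ a) (fun x => E a b x y) ≤ η) : 
    probT μ (fun x => ∃ a b, a ≠ b ∧ E a b (x a) (x b)) ≤ (M : ℝ) ^ 2 * max η 0 := by
  classical
  have h0 : 0 ≤ max η 0 := le_max_right _ _
  have hnn : ∀ x : Fin M → Fin k → ℤ, 0 ≤ ∏ a, ∏ j, (μ a j).p (x a j) := 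
    fun x => Finset.prod_nonneg fun a _ => Finset.prod_nonneg fun j _ => (μ a j).nn _
  have h1 : probT μ (fun x => ∃ a b, a ≠ b ∧ E a b (x a) (x b)) ≤ 
      ∑ p : Fin M × Fin M, ∑ x ∈ Fintype.piFinset (fun a => Fintype.piFinset (fun j => (μ a j).A)), 
        (if p.1 ≠ p.2 ∧ E p.1 p.2 (x p.1) (x p.2) then ∏ a, ∏ j, (μ a j).p (x a j) else 0) := by
    unfold probT
    rw [Finset.sum_filter, Finset.sum_comm]
    refine Finset.sum_le_sum fun x _ => ?_
    have hterm : ∀ p : Fin M × Fin M, 0 ≤ (if p.1 ≠ p.2 ∧ E p.1 p.2 (x p.1) (x p.2) then 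
        ∏ a, ∏ j, (μ a j).p (x a j) else 0) := by
      intro p
      split_ifs
      · exact hnn x
      · exact le_rfl
    by_cases hx : ∃ a b, a ≠ b ∧ E a b (x a) (x b)
    · obtain ⟨a, b, hab, hE⟩ := hx
      rw [if_pos ⟨a, b, hab, hE⟩]
      have h2 := Finset.single_le_sum (fun p _ => hterm p) (Finset.mem_univ (a, b))
      simp only [if_pos (show a ≠ b ∧ E a b (x a) (x b) from ⟨hab, hE⟩)] at h2
      exact h2
    · rw [if_neg hx]
      exact Finset.sum_nonneg fun p _ => hterm p
  refine h1.trans ?_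
  have h2 : ∀ p : Fin M × Fin M, 
      ∑ x ∈ Fintype.piFinset (fun a => Fintype.piFinset (fun j => (μ a j).A)), 
        (if p.1 ≠ p.2 ∧ E p.1 p.2 (x p.1) (x p.2) then ∏ a, ∏ j, (μ a j).p (x a j) else 0) ≤ max η 0 := by
    rintro ⟨a, b⟩
    by_cases hab : a = b
    · refine le_trans (le_of_eq ?_) h0
      refine Finset.sum_eq_zero fun x _ => ?_
      rw [if_neg]
      rintro ⟨h, _⟩
      exact h hab
    · have h3 := pair_sum (fun a => Fintype.piFinset (fun j => (μ a j).A)) 
        (fun a (x : Fin k → ℤ) => ∏ j, (μ a j).p (x j)) 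
        (fun a x => Finset.prod_nonneg fun j _ => (μ a j).nn _) (fun a => law_sum (μ a)) a b hab 
        (E a b) η (fun y _ => by
          have h4 := hη a b hab y
          unfold prob at h4
          rw [Finset.sum_filter] at h4
          exact h4)
      refine le_trans (le_of_eq ?_) (h3.trans (le_max_left _ _))
      refine Finset.sum_congr rfl fun x _ => ?_
      simp only [ne_eq, hab, not_false_eq_true, true_and]
  calc _ ≤ ∑ p : Fin M × Fin M, max η 0 := Finset.sum_le_sum fun p _ => h2 p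
    _ = (M : ℝ) ^ 2 * max η 0 := by
      rw [Finset.sum_const, Finset.card_univ, Fintype.card_prod, Fintype.card_fin, nsmul_eq_mul]
      push_cast
      ring

end Pool.Agent.Y463.VL
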