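import Pool.Agent.Y463.VL.Defs
import Pool.Agent.Y463.UT.Link
import Pool.Agent.W705.JR.Vas
import Pool.Agent.H891R2.VS.Site

/-!
# The number of the terms of the bracket of a diagram with powers of generators in a box
-/

set_option autoImplicit false

namespace Pool.Agent.Y463.VL

open Finset LaurentPolynomial Pool.Agent.H891R2.Jones Pool.Agent.W639.RB Pool.Agent.Y463.SK 
  Pool.Agent.Y463.MP Pool.Agent.Y463.RW Pool.Agent.Y463.UT
open Pool.Agent.W705.JR (idx_lt Within within_bracket)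

variable {m : ℕ}

/-- ordered products of sums -/
theorem prod_add {R : Type*} [Ring R] : ∀ (k : ℕ) (a b : Fin k → R), 
    (List.ofFn (fun j => a j + b j)).prod = 
      ∑ s : Fin k → Bool, (List.ofFn (fun j => if s j then a j else b j)).prod := by
  intro k
  induction k with
  | zero => intro a b; simp
  | succ k ih =>
    intro a b
    rw [List.ofFn_succ, List.prod_cons, ih (fun j => a j.succ) (fun j => b j.succ)]
    have h1 : ∑ s : Fin (k+1) → Bool, (List.ofFn (fun j => if s j then a j else b j)).prod = 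
        ∑ p : Bool × (Fin k → Bool), (if p.1 then a 0 else b 0) * 
          (List.ofFn (fun j : Fin k => if p.2 j then a j.succ else b j.succ)).prod := by
      refine (Fintype.sum_equiv (Fin.consEquiv (fun _ : Fin (k+1) => Bool)) _ _ ?_).symm
      rintro ⟨c, s⟩
      rw [List.ofFn_succ, List.prod_cons]
      rfl
    rw [h1, Fintype.sum_prod_type, Fintype.sum_bool, Finset.mul_sum]
    simp only [if_true, Bool.false_eq_true, if_false]
    rw [← Finset.sum_add_distrib]
    exact Finset.sum_congr rfl fun s _ => by rw [add_mul]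

/-- the loop value -/
noncomputable def dl : ℤ[T;T⁻¹] := -T 2 - T (-2)

/-- `(-A⁻⁴)^n` -/
noncomputable def zz (n : ℤ) : ℤ[T;T⁻¹] := C ((n.negOnePow : ℤˣ) : ℤ) * T (-4 * n)

theorem zz_succ (n : ℤ) : zz (n + 1) = - (T (-4) * zz n) := by
  unfold zz
  rw [Int.negOnePow_succ, mul_add, T_add, Units.val_neg, map_neg]
  simp only [mul_one]
  ring

theorem zz_pred (n : ℤ) : zz (n - 1) = - (T 4 * zz n) := by
  have h := zz_succ (n - 1)
  rw [sub_add_cancel] at h
  have h2 : (T 4 : ℤ[T;T⁻¹]) * T (-4) = 1 := by rw [← T_add]; simp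
  rw [h]
  linear_combination (-zz (n - 1)) * h2

/-- the element of a word -/
noncomputable def wZ (m : ℕ) (w : List (Letter m)) : TLZ m := (w.map (fun x => sZ m (x.1, (x.2 : ℕ)))).prod

theorem wZ_append (w w' : List (Letter m)) : wZ m (w ++ w') = wZ m w * wZ m w' := by
  unfold wZ
  rw [List.map_append, List.prod_append]

theorem PhiS_wZ (hm : 0 < m) : ∀ (w : List (Letter m)) (O : Outer m) (b : TLZ m), 
    PhiS hm O (wZ m w * b) = PhiS hm (draw O (w.map (fun x => (x.1, (x.2 : ℕ))))) b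
  | [], O, b => by
    show PhiS hm O (1 * b) = PhiS hm O b
    rw [one_mul]
  | (x :: w), O, b => by
    have h1 : wZ m (x :: w) * b = sZ m (x.1, (x.2 : ℕ)) * (wZ m w * b) := by
      unfold wZ
      rw [List.map_cons, List.prod_cons, mul_assoc]
    rw [h1, ← PhiS_push, PhiS_wZ hm w]
    rfl

theorem bracket_eq (hm : 0 < m) (O : Outer m) (w : List (Letter m)) : 
    (dia O w).bracket = PhiS hm O (wZ m w) := by
  have h1 := PhiS_wZ hm w O 1
  rw [mul_one, PhiS_one] at h1
  exact h1.symm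

theorem T_mul_T (a b : ℤ) : (T a * T b : ℤ[T;T⁻¹]) = T (a + b) := (T_add a b).symm

theorem sZ_mul_e (i : ℕ) (hi : i + 1 < m) : sZ m (true, i) * EZ m i = (-T (-3) : ℤ[T;T⁻¹]) • EZ m i := by
  have h1 := (isTL_EZ m).sq i hi
  have h2 : sZ m (true, i) = (T 1 : ℤ[T;T⁻¹]) • (1 : TLZ m) + (T (-1) : ℤ[T;T⁻¹]) • EZ m i := rfl
  rw [h2, add_mul, smul_mul_assoc, smul_mul_assoc, one_mul, h1, smul_smul, ← add_smul]
  congr 1
  rw [T_pow, T_pow, mul_sub, mul_neg, T_mul_T, T_mul_T]
  norm_num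
  try ring

theorem sZ_inv_mul_e (i : ℕ) (hi : i + 1 < m) : 
    sZ m (false, i) * EZ m i = (-T 3 : ℤ[T;T⁻¹]) • EZ m i := by
  have h1 := (isTL_EZ m).sq i hi
  have h2 : sZ m (false, i) = (T (-1) : ℤ[T;T⁻¹]) • (1 : TLZ m) + (T 1 : ℤ[T;T⁻¹]) • EZ m i := rfl
  rw [h2, add_mul, smul_mul_assoc, smul_mul_assoc, one_mul, h1, smul_smul, ← add_smul]
  congr 1
  rw [T_pow, T_pow, mul_sub, mul_neg, T_mul_T, T_mul_T]
  norm_num
  try ring

/-- the value of `δ σ^n` -/
noncomputable def ff (m : ℕ) (i : ℕ) (n : ℤ) : TLZ m := 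
  zz n • EZ m i + (dl • (1 : TLZ m) - EZ m i)

theorem step_pos (i : ℕ) (hi : i + 1 < m) (n : ℤ) : 
    sZ m (true, i) * ff m i n = (T 1 : ℤ[T;T⁻¹]) • ff m i (n + 1) := by
  unfold ff
  rw [mul_add, mul_smul_comm, mul_sub, mul_smul_comm, mul_one, sZ_mul_e i hi, zz_succ]
  have h2 : sZ m (true, i) = (T 1 : ℤ[T;T⁻¹]) • (1 : TLZ m) + (T (-1) : ℤ[T;T⁻¹]) • EZ m i := rfl
  rw [h2]
  have e1 : (T (-1) : ℤ[T;T⁻¹]) * T (-2) = T (-3) := by rw [T_mul_T]; norm_num
  have e2 : (T (-1) : ℤ[T;T⁻¹]) * T 2 = T 1 := by rw [T_mul_T]; norm_num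
  have e3 : (T 1 : ℤ[T;T⁻¹]) * T (-4) = T (-3) := by rw [T_mul_T]; norm_num
  have e4 : dl * (T (-1) : ℤ[T;T⁻¹]) = -T 1 - T (-3) := by
    unfold dl
    rw [sub_mul, neg_mul, mul_comm (T 2), e2, mul_comm (T (-2)), e1]
  match_scalars
  · linear_combination e4 + zz n * e3
  · ring

theorem step_neg (i : ℕ) (hi : i + 1 < m) (n : ℤ) : 
    sZ m (false, i) * ff m i n = (T (-1) : ℤ[T;T⁻¹]) • ff m i (n - 1) := by
  unfold ff
  rw [mul_add, mul_smul_comm, mul_sub, mul_smul_comm, mul_one, sZ_inv_mul_e i hi, zz_pred]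
  have h2 : sZ m (false, i) = (T (-1) : ℤ[T;T⁻¹]) • (1 : TLZ m) + (T 1 : ℤ[T;T⁻¹]) • EZ m i := rfl
  rw [h2]
  have e1 : (T 1 : ℤ[T;T⁻¹]) * T 2 = T 3 := by rw [T_mul_T]; norm_num
  have e2 : (T 1 : ℤ[T;T⁻¹]) * T (-2) = T (-1) := by rw [T_mul_T]; norm_num
  have e3 : (T (-1) : ℤ[T;T⁻¹]) * T 4 = T 3 := by rw [T_mul_T]; norm_num
  have e4 : dl * (T 1 : ℤ[T;T⁻¹]) = -T 3 - T (-1) := by
    unfold dl
    rw [sub_mul, neg_mul, mul_comm (T 2), e1, mul_comm (T (-2)), e2]
  match_scalars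
  · linear_combination e4 + zz n * e3
  · ring

theorem zz_zero : zz 0 = 1 := by
  unfold zz
  simp

theorem ff_zero (i : ℕ) : ff m i 0 = dl • (1 : TLZ m) := by
  unfold ff
  rw [zz_zero, one_smul]
  abel

theorem rep_pos (i : Fin (m - 1)) : ∀ n : ℕ, 
    dl • wZ m (List.replicate n (true, i)) = (T n : ℤ[T;T⁻¹]) • ff m i n
  | 0 => by
    have h1 : wZ m (List.replicate 0 (true, i)) = 1 := rfl
    rw [h1]
    simp [ff_zero]
  | (n + 1) => by
    have h1 : wZ m (List.replicate (n + 1) (true, i)) = 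
        sZ m (true, (i : ℕ)) * wZ m (List.replicate n (true, i)) := by
      rw [List.replicate_succ]
      unfold wZ
      rw [List.map_cons, List.prod_cons]
    rw [h1, ← mul_smul_comm, rep_pos i n, mul_smul_comm, step_pos _ (idx_lt (true, i)), smul_smul, T_mul_T]
    push_cast
    rfl

theorem rep_neg (i : Fin (m - 1)) : ∀ n : ℕ, 
    dl • wZ m (List.replicate n (false, i)) = (T (-(n : ℤ)) : ℤ[T;T⁻¹]) • ff m i (-(n : ℤ))
  | 0 => by
    have h1 : wZ m (List.replicate 0 (false, i)) = 1 := rfl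
    rw [h1]
    simp [ff_zero]
  | (n + 1) => by
    have h1 : wZ m (List.replicate (n + 1) (false, i)) = 
        sZ m (false, (i : ℕ)) * wZ m (List.replicate n (false, i)) := by
      rw [List.replicate_succ]
      unfold wZ
      rw [List.map_cons, List.prod_cons]
    rw [h1, ← mul_smul_comm, rep_neg i n, mul_smul_comm, step_neg _ (idx_lt (false, i)), smul_smul, T_mul_T]
    have h2 : -(n : ℤ) + -1 = -((n + 1 : ℕ) : ℤ) := by push_cast; ring
    have h3 : -(n : ℤ) - 1 = -((n + 1 : ℕ) : ℤ) := by push_cast; ring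
    rw [h2, h3]

theorem flatten_single {α : Type*} (x : α) : ∀ n : ℕ, (List.replicate n [x]).flatten = List.replicate n x
  | 0 => rfl
  | (n + 1) => by rw [List.replicate_succ, List.flatten_cons, flatten_single x n, List.replicate_succ]; rfl

theorem pow_eq (i : Fin (m - 1)) (n : ℤ) : 
    dl • wZ m (powW [(true, i)] n) = (T n : ℤ[T;T⁻¹]) • ff m i n := by
  rcases n with n | n
  · have h1 : powW [((true, i) : Letter m)] (Int.ofNat n) = List.replicate n (true, i) := flatten_single _ n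
    rw [h1]
    exact rep_pos i n
  · have h1 : powW [((true, i) : Letter m)] (Int.negSucc n) = List.replicate (n + 1) (false, i) := 
      flatten_single _ (n + 1)
    rw [h1, rep_neg i (n + 1)]
    have h2 : -((n + 1 : ℕ) : ℤ) = Int.negSucc n := rfl
    rw [h2]

theorem tw_eq : ∀ (k : ℕ) (i : Fin k → Fin (m - 1)) (x : Fin k → ℤ), 
    dl ^ k • wZ m (tw i x) = (T (∑ j, x j) : ℤ[T;T⁻¹]) • (List.ofFn (fun j => ff m (i j) (x j))).prod := by
  intro k
  induction k with
  | zero =>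
    intro i x
    have h1 : wZ m (tw i x) = 1 := rfl
    rw [h1]
    simp
  | succ k ih =>
    intro i x
    have h1 : wZ m (tw i x) = wZ m (powW [(true, i 0)] (x 0)) * 
        wZ m (tw (fun j => i j.succ) (fun j => x j.succ)) := by
      unfold tw
      rw [List.ofFn_succ, List.flatten_cons, wZ_append]
    rw [h1, pow_succ', mul_smul, ← mul_smul_comm, ih, ← smul_mul_assoc, pow_eq, List.ofFn_succ, 
      List.prod_cons, Fin.sum_univ_succ, smul_mul_smul_comm, T_mul_T]

/-- the factors -/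
noncomputable def ft (m : ℕ) (i : ℕ) (b : Bool) : TLZ m := if b then EZ m i else dl • (1 : TLZ m) - EZ m i

theorem ft_true (i : ℕ) : ft m i true = 
    (T 1 : ℤ[T;T⁻¹]) • sZ m (true, i) + (-T 2 : ℤ[T;T⁻¹]) • (1 : TLZ m) := by
  have h2 : sZ m (true, i) = (T 1 : ℤ[T;T⁻¹]) • (1 : TLZ m) + (T (-1) : ℤ[T;T⁻¹]) • EZ m i := rfl
  unfold ft
  rw [if_pos rfl, h2, smul_add, smul_smul, smul_smul, T_mul_T, T_mul_T, neg_smul]
  norm_num

theorem ft_false (i : ℕ) : ft m i false = 
    (-T 1 : ℤ[T;T⁻¹]) • sZ m (true, i) + (-T (-2) : ℤ[T;T⁻¹]) • (1 : TLZ m) := by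
  have h2 : sZ m (true, i) = (T 1 : ℤ[T;T⁻¹]) • (1 : TLZ m) + (T (-1) : ℤ[T;T⁻¹]) • EZ m i := rfl
  unfold ft
  rw [if_neg (by simp), h2, smul_add, smul_smul, smul_smul, neg_mul, T_mul_T, neg_mul, T_mul_T, neg_smul,
    neg_smul, neg_smul]
  unfold dl
  norm_num
  rw [sub_smul, neg_smul]
  abel

/-- the coefficients -/
noncomputable def QQ (hm : 0 < m) (O : Outer m) {k : ℕ} (i : Fin k → Fin (m - 1)) (s : Fin k → Bool) : 
    ℤ[T;T⁻¹] := PhiS hm O (List.ofFn (fun j => ft m (i j) (s j))).prod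

theorem csize_push (O : Outer m) (x : Letter m) : csize (O.push x.1 x.2) = csize O + (2 * m + 1) := by
  have h4 : (O.push x.1 x.2).crossings.length = O.crossings.length + 1 ∧ 
      Nat.card (O.push x.1 x.2).P = Nat.card O.P + m := by
    unfold Outer.push
    rw [dif_pos (idx_lt x)]
    refine ⟨by simp, ?_⟩
    simp [Nat.card_eq_fintype_card]
  unfold csize
  rw [h4.1, h4.2]
  ring

theorem within_smul_T {N : ℕ} {f : ℤ[T;T⁻¹]} (hf : Within N f) (a : ℤ) (M : ℕ) (ha : |a| ≤ M) : 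
    Within (N + M) (T a * f) := by
  rw [mul_comm]
  exact hf.mul_T a M ha

theorem within_QQ (hm : 0 < m) : ∀ (k : ℕ) (O : Outer m) (i : Fin k → Fin (m - 1)) (s : Fin k → Bool), 
    Within (csize O + (2 * m + 3) * k) (QQ hm O i s) := by
  intro k
  induction k with
  | zero =>
    intro O i s
    have h1 : QQ hm O i s = O.close.bracket := PhiS_one hm O
    rw [h1]
    exact (within_bracket O.close).mono (by unfold csize; exact le_of_eq rfl)
  | succ k ih =>
    intro O i s
    set r : TLZ m := (List.ofFn (fun j : Fin k => ft m (i j.succ) (s j.succ))).prod with hr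
    have h1 : QQ hm O i s = PhiS hm O (ft m (i 0) (s 0) * r) := by
      unfold QQ
      rw [List.ofFn_succ, List.prod_cons]
    have ha : Within (csize O + (2 * m + 3) * k) (PhiS hm O r) := ih O _ _
    have hb : Within (csize O + (2 * m + 1) + (2 * m + 3) * k) (PhiS hm O (sZ m (true, (i 0 : ℕ)) * r)) := by
      have h2 := PhiS_push hm O (true, i 0) r
      rw [← h2]
      have h3 := ih (O.push true (i 0)) (fun j => i j.succ) (fun j => s j.succ)
      have h4 := csize_push O (true, i 0)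
      have h5 : csize (O.push true (i 0)) = csize O + (2 * m + 1) := h4
      rw [h5] at h3
      exact h3
    have e1 : PhiS hm O (ft m (i 0) false * r) = 
        -(T 1 * PhiS hm O (sZ m (true, (i 0 : ℕ)) * r)) + -(T (-2) * PhiS hm O r) := by
      rw [ft_false, add_mul, smul_mul_assoc, smul_mul_assoc, one_mul, map_add, map_smul, map_smul, 
        smul_eq_mul, smul_eq_mul, neg_mul, neg_mul]
    have e2 : PhiS hm O (ft m (i 0) true * r) = 
        T 1 * PhiS hm O (sZ m (true, (i 0 : ℕ)) * r) + -(T 2 * PhiS hm O r) := by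
      rw [ft_true, add_mul, smul_mul_assoc, smul_mul_assoc, one_mul, map_add, map_smul, map_smul, 
        smul_eq_mul, smul_eq_mul, neg_mul]
    have e3 : (2 * m + 3) * (k + 1) = (2 * m + 3) * k + (2 * m + 3) := by ring
    rw [h1, e3]
    cases s 0
    · rw [e1]
      refine Within.add (Within.neg ?_) (Within.neg ?_)
      · exact (within_smul_T hb 1 2 (by norm_num)).mono (by omega)
      · exact (within_smul_T ha (-2) 2 (by norm_num)).mono (by omega)
    · rw [e2]
      refine Within.add ?_ (Within.neg ?_)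
      · exact (within_smul_T hb 1 2 (by norm_num)).mono (by omega)
      · exact (within_smul_T ha 2 2 (by norm_num)).mono (by omega)

/-- a sign times a power of `A` -/
def IsU (u : ℤ[T;T⁻¹]) : Prop := ∃ (c n : ℤ), u = C c * T n

theorem IsU.mul {u v : ℤ[T;T⁻¹]} (hu : IsU u) (hv : IsU v) : IsU (u * v) := by
  obtain ⟨c, n, rfl⟩ := hu
  obtain ⟨d, l, rfl⟩ := hv
  exact ⟨c * d, n + l, by rw [map_mul, T_add]; ring⟩

theorem isU_zz (n : ℤ) : IsU (zz n) := ⟨_, _, rfl⟩

theorem isU_one : IsU (1 : ℤ[T;T⁻¹]) := ⟨1, 0, by simp⟩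

theorem isU_T (n : ℤ) : IsU (T n : ℤ[T;T⁻¹]) := ⟨1, n, by simp⟩

theorem isU_neg_T (n : ℤ) : IsU (-T n : ℤ[T;T⁻¹]) := ⟨-1, n, by simp⟩

theorem isU_prod {ι : Type*} (s : Finset ι) (f : ι → ℤ[T;T⁻¹]) (h : ∀ i ∈ s, IsU (f i)) : 
    IsU (∏ i ∈ s, f i) := by
  classical
  induction s using Finset.induction_on with
  | empty => simpa using isU_one
  | insert a s ha ih =>
    rw [Finset.prod_insert ha]
    exact (h a (Finset.mem_insert_self _ _)).mul (ih fun i hi => h i (Finset.mem_insert_of_mem hi))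

/-- ordered products with scalars -/
theorem prod_smul' {R : Type*} {A : Type*} [CommRing R] [Ring A] [Algebra R A] : 
    ∀ (k : ℕ) (c : Fin k → R) (a : Fin k → A), 
      (List.ofFn (fun j => c j • a j)).prod = (∏ j, c j) • (List.ofFn a).prod := by
  intro k
  induction k with
  | zero => intro c a; simp
  | succ k ih =>
    intro c a
    rw [List.ofFn_succ, List.prod_cons, ih (fun j => c j.succ) (fun j => a j.succ), List.ofFn_succ, 
      List.prod_cons, Fin.prod_univ_succ, smul_mul_smul_comm]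

/-- the expansion -/
theorem expand (hm : 0 < m) (O : Outer m) {k : ℕ} (i : Fin k → Fin (m - 1)) (x : Fin k → ℤ) : 
    ∃ c : (Fin k → Bool) → ℤ[T;T⁻¹], (∀ s, IsU (c s)) ∧ 
      dl ^ k * (dia O (tw i x)).bracket = ∑ s, c s * QQ hm O i s := by
  refine ⟨fun s => T (∑ j, x j) * ∏ j, (if s j then zz (x j) else 1), fun s => ?_, ?_⟩
  · refine (isU_T _).mul (isU_prod _ _ fun j _ => ?_)
    split_ifs
    · exact isU_zz _
    · exact isU_one
  · have h1 : dl ^ k * (dia O (tw i x)).bracket = PhiS hm O (dl ^ k • wZ m (tw i x)) := by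
      rw [map_smul, smul_eq_mul, bracket_eq hm]
    rw [h1, tw_eq]
    have h2 : (List.ofFn (fun j => ff m (i j) (x j))).prod = 
        ∑ s : Fin k → Bool, (∏ j, (if s j then zz (x j) else 1)) • 
          (List.ofFn (fun j => ft m (i j) (s j))).prod := by
      have h3 := prod_add k (fun j => zz (x j) • EZ m (i j)) 
        (fun j => dl • (1 : TLZ m) - EZ m (i j))
      have h4 : (fun j => ff m (i j) (x j)) = 
          fun j => zz (x j) • EZ m (i j) + (dl • (1 : TLZ m) - EZ m (i j)) := rfl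
      rw [h4, h3]
      refine Finset.sum_congr rfl fun s _ => ?_
      rw [← prod_smul']
      congr 2
      funext j
      unfold ft
      cases s j <;> simp
    rw [h2, map_smul, map_sum, smul_eq_mul, Finset.mul_sum]
    refine Finset.sum_congr rfl fun s _ => ?_
    rw [map_smul, smul_eq_mul, mul_assoc]
    rfl

end Pool.Agent.Y463.VL
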