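import Pool.Agent.Y463.VL.Defs
import Pool.Agent.Y463.VL.Terms
import Pool.Agent.Y463.UT.Fin

/-!
# Different normalised brackets are separated in bounded order
-/

set_option autoImplicit false

namespace Pool.Agent.Y463.VL

open Finset LaurentPolynomial Pool.Agent.H891R2.Jones Pool.Agent.W639.RB Pool.Agent.Y463.SK 
  Pool.Agent.Y463.MP Pool.Agent.Y463.RW Pool.Agent.Y463.UT Pool.Agent.H832R3.VJ
open Pool.Agent.W705.JR (idx_lt Within within_bracket card_le_of_within sep_mono card_sub)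

variable {m : ℕ}

theorem within_dl {N : ℕ} {f : ℤ[T;T⁻¹]} (hf : Within N f) : Within (N + 2) (dl * f) := by
  have h : dl * f = -(T 2 * f) + -(T (-2) * f) := by unfold dl; ring
  rw [h]
  exact (within_smul_T hf 2 2 (by norm_num)).neg.add (within_smul_T hf (-2) 2 (by norm_num)).neg

theorem within_dl_pow {N : ℕ} {f : ℤ[T;T⁻¹]} (hf : Within N f) : ∀ k : ℕ, Within (N + 2 * k) (dl ^ k * f)
  | 0 => by simpa using hf
  | (k + 1) => by
    have h := within_dl (within_dl_pow hf k)
    rw [pow_succ', mul_assoc]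
    exact h.mono (by omega)

theorem card_U {u : ℤ[T;T⁻¹]} (hu : IsU u) (f : ℤ[T;T⁻¹]) : 
    (u * f).coeff.support.card ≤ f.coeff.support.card := by
  obtain ⟨c, n, rfl⟩ := hu
  exact Pool.Agent.H832R3.VJ.FinL.card_support_unit _ _ _

theorem fPoly_U {P : Type} (D : Diagram P) : ∃ u, IsU u ∧ D.fPoly = u * D.bracket := by
  refine ⟨(if Even D.writhe then 1 else -1) * T (-3 * D.writhe), ?_, ?_⟩
  · refine IsU.mul ?_ (isU_T _)
    split_ifs
    · exact isU_one
    · exact ⟨-1, 0, by simp⟩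
  · unfold Diagram.fPoly
    rfl

theorem card_mem (hm : 0 < m) (O : Outer m) {k : ℕ} (i : Fin k → Fin (m - 1)) (x : Fin k → ℤ) (k' : ℕ) : 
    (dl ^ (k + k') * (mem O i x).D.fPoly).coeff.support.card ≤ 
      2 ^ k * (2 * (csize O + (2 * m + 3) * k + 2 * k') + 1) := by
  obtain ⟨u, hu, h1⟩ := fPoly_U (dia O (tw i x))
  obtain ⟨c, hc, h2⟩ := expand hm O i x
  have h3 : (mem O i x).D.fPoly = (dia O (tw i x)).fPoly := rfl
  have h4 : dl ^ (k + k') * (mem O i x).D.fPoly = ∑ s, (u * c s) * (dl ^ k' * QQ hm O i s) := by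
    rw [h3, h1]
    calc dl ^ (k + k') * (u * (dia O (tw i x)).bracket) = 
        (u * dl ^ k') * (dl ^ k * (dia O (tw i x)).bracket) := by ring
      _ = ∑ s, (u * c s) * (dl ^ k' * QQ hm O i s) := by
        rw [h2, Finset.mul_sum]
        exact Finset.sum_congr rfl fun s _ => by ring
  rw [h4]
  refine (Pool.Agent.H891R2.VS.card_support_sum _ _ 
    (2 * (csize O + (2 * m + 3) * k + 2 * k') + 1) ?_).trans ?_
  · intro s _
    refine (card_U (hu.mul (hc s)) _).trans ?_
    exact card_le_of_within (within_dl_pow (within_QQ hm k O i s) k')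
  · simp

theorem card_fixed (Y : Dia) (k : ℕ) : 
    (dl ^ k * Y.D.fPoly).coeff.support.card ≤ 2 * (dsz Y + 2 * k) + 1 := by
  have := Y.fin
  obtain ⟨u, hu, h1⟩ := fPoly_U Y.D
  have h2 : dl ^ k * Y.D.fPoly = u * (dl ^ k * Y.D.bracket) := by rw [h1]; ring
  rw [h2]
  refine (card_U hu _).trans ?_
  exact card_le_of_within (within_dl_pow (within_bracket Y.D) k)

theorem dl_ne : dl ≠ 0 := Pool.Agent.H832R3.VJ.FinL.delta_ne

/-- a member and a fixed diagram -/
theorem sep_fixed (hm : 0 < m) (O : Outer m) {k : ℕ} (i : Fin k → Fin (m - 1)) (x : Fin k → ℤ) (Y : Dia) 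
    (s : ℕ) (hO : csize O ≤ s) (hY : dsz Y ≤ s) (h : ¬ Separated (ordB m s k) (mem O i x) Y) : 
    (mem O i x).D.fPoly = Y.D.fPoly := by
  by_contra hne
  apply h
  have h3 := separated_of_ne (ordB m s k + 1) (mem O i x) Y (dl ^ k) (pow_ne_zero _ dl_ne) (by
    rw [mul_sub]
    refine (card_sub _ _).trans ?_
    have h1 := card_mem hm O i x 0
    have h2 := card_fixed Y k
    rw [add_zero] at h1
    have h4 : 2 ^ k * (2 * (csize O + (2 * m + 3) * k + 2 * 0) + 1) ≤ 
        2 ^ k * (2 * (s + (2 * m + 5) * k) + 1) := by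
      refine Nat.mul_le_mul_left _ ?_
      have : (2 * m + 3) * k ≤ (2 * m + 5) * k := Nat.mul_le_mul_right _ (by omega)
      omega
    have h5 : 2 * (dsz Y + 2 * k) + 1 ≤ 2 ^ k * (2 * (s + (2 * m + 5) * k) + 1) := by
      have h6 : 2 * (dsz Y + 2 * k) + 1 ≤ 2 * (s + (2 * m + 5) * k) + 1 := by
        have : 2 * k ≤ (2 * m + 5) * k := Nat.mul_le_mul_right _ (by omega)
        omega
      refine h6.trans ?_
      exact Nat.le_mul_of_pos_left _ (by positivity)
    have h7 : ordB m s k = 2 ^ k * (2 * (s + (2 * m + 5) * k) + 1) + 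
        2 ^ k * (2 * (s + (2 * m + 5) * k) + 1) := by
      unfold ordB; ring
    omega) hne
  exact sep_mono (by omega) h3

/-- two members -/
theorem sep_pair (hm : 0 < m) (O O' : Outer m) {k : ℕ} (i i' : Fin k → Fin (m - 1)) (x y : Fin k → ℤ)
    (s : ℕ) (hO : csize O ≤ s) (hO' : csize O' ≤ s) 
    (h : ¬ Separated (ordB m s k) (mem O i x) (mem O' i' y)) : 
    (mem O i x).D.fPoly = (mem O' i' y).D.fPoly := by
  by_contra hne
  apply h
  have h3 := separated_of_ne (ordB m s k + 1) (mem O i x) (mem O' i' y) (dl ^ (k + k)) 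
    (pow_ne_zero _ dl_ne) (by
      rw [mul_sub]
      refine (card_sub _ _).trans ?_
      have h1 := card_mem hm O i x k
      have h2 := card_mem hm O' i' y k
      have h4 : ∀ O : Outer m, csize O ≤ s → 2 ^ k * (2 * (csize O + (2 * m + 3) * k + 2 * k) + 1) ≤ 
          2 ^ k * (2 * (s + (2 * m + 5) * k) + 1) := by
        intro O hO
        refine Nat.mul_le_mul_left _ ?_
        have : (2 * m + 5) * k = (2 * m + 3) * k + 2 * k := by ring
        omega
      have h5 := h4 O hO
      have h6 := h4 O' hO'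
      have h7 : ordB m s k = 2 ^ k * (2 * (s + (2 * m + 5) * k) + 1) + 
          2 ^ k * (2 * (s + (2 * m + 5) * k) + 1) := by
        unfold ordB; ring
      omega) hne
  exact sep_mono (by omega) h3

end Pool.Agent.Y463.VL
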